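import Mathlib
import Pool.Agent.H.MP_5f83d6_pr.ZPer

open MeasureTheory
open Pool.Agent.H.MP_5f83d6_pr

namespace Pool.Agent.Results.MP_5f83d6_pr.AntiConcentration

/-- There is a polynomial `p` in two variables such that for every `n ≥ 1` and `δ > 0` one has
`p(n, 1/δ) > 0` and, for every `z` on the unit circle, the `z`-permanent of an `n × n` matrix of
i.i.d. standard complex Gaussians satisfies `|Per_z(X)|² ≥ √(n!) / p(n, 1/δ)` with probability at
least `1 - δ`. -/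
theorem result :
    ∃ p : MvPolynomial (Fin 2) ℝ, ∀ (n : ℕ) (δ : ℝ), 0 < n → 0 < δ →
      0 < MvPolynomial.eval ![(n : ℝ), 1 / δ] p ∧
      ∀ z : ℂ, ‖z‖ = 1 →
        1 - δ ≤ (gaussianMatrix n).real
          {X | √(n.factorial : ℝ) / MvPolynomial.eval ![(n : ℝ), 1 / δ] p
            ≤ ‖zPermanent z X‖ ^ 2} := by
  refine ⟨MvPolynomial.C 60 * MvPolynomial.X 1 ^ 2, fun n δ _ hδ => ?_⟩
  have he : MvPolynomial.eval ![(n : ℝ), 1 / δ]
      (MvPolynomial.C 60 * MvPolynomial.X 1 ^ 2 : MvPolynomial (Fin 2) ℝ) = 60 * (1 / δ) ^ 2 := by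
    simp
  rw [he]
  refine ⟨by positivity, fun z hz => ?_⟩
  have hset : {X : Fin n → Fin n → ℂ | √(n.factorial : ℝ) / (60 * (1 / δ) ^ 2)
      ≤ ‖zPermanent z X‖ ^ 2}
      = {X | ‖zPermanent z X‖ ^ 2 < √(n.factorial : ℝ) / (60 * (1 / δ) ^ 2)}ᶜ := by
    ext X
    simp
  have hm : MeasurableSet {X : Fin n → Fin n → ℂ |
      ‖zPermanent z X‖ ^ 2 < √(n.factorial : ℝ) / (60 * (1 / δ) ^ 2)} :=
    measurableSet_lt ((measurable_zPermanent z).norm.pow_const 2) measurable_const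
  rw [hset, probReal_compl_eq_one_sub hm]
  have h := anti n z hz δ hδ
  have h2 : (gaussianMatrix n).real {X : Fin n → Fin n → ℂ |
      ‖zPermanent z X‖ ^ 2 < √(n.factorial : ℝ) / (60 * (1 / δ) ^ 2)} ≤ δ :=
    ENNReal.toReal_le_of_le_ofReal hδ.le h
  linarith

end Pool.Agent.Results.MP_5f83d6_pr.AntiConcentration
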