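import Mathlib
import Pool.Agent.H.MP_5f83d6_pr.TrueScale

open MeasureTheory
open Pool.Agent.H.MP_5f83d6_pr

namespace Pool.Agent.Results.MP_5f83d6_pr.TrueScale

/-- Anti-concentration of `z`-permanents at the scale `n!` of the second moment, uniformly in `z`
on the unit circle.  (1) For `0 < b < 1` and `t > 0`, the probability that `|Per_z(X)|² < t n!` is
at most `Γ(1-b)^n min(1, (n+1)^(1-b) Γ(1+b)^n) t^b`.  (2) For `n ≥ 1` and `0 < δ ≤ 1`, with
`M = log((n+1)/δ)`, one has `|Per_z(X)|² ≥ n! exp(-max(3 √(n M), 4 M))` with probability at least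
`1 - δ`. -/
theorem result :
    (∀ (n : ℕ) (z : ℂ) (b t : ℝ), ‖z‖ = 1 → 0 < b → b < 1 → 0 < t →
      (gaussianMatrix n).real {X | ‖zPermanent z X‖ ^ 2 < t * n.factorial}
        ≤ Real.Gamma (1 - b) ^ n *
          min 1 (((n : ℝ) + 1) ^ (1 - b) * Real.Gamma (1 + b) ^ n) * t ^ b) ∧
    (∀ (n : ℕ) (z : ℂ) (δ : ℝ), 0 < n → ‖z‖ = 1 → 0 < δ → δ ≤ 1 →
      1 - δ ≤ (gaussianMatrix n).real
        {X | (n.factorial : ℝ) * Real.exp (-(max (3 * √(n * Real.log ((n + 1) / δ)))
          (4 * Real.log ((n + 1) / δ)))) ≤ ‖zPermanent z X‖ ^ 2}) := by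
  constructor
  · intro n z b t hz hb hb1 ht
    have hG1 : 0 < Real.Gamma (1 - b) := Real.Gamma_pos_of_pos (by linarith)
    have hG2 : 0 < Real.Gamma (1 + b) := Real.Gamma_pos_of_pos (by linarith)
    have htb : 0 < t ^ b := Real.rpow_pos_of_pos ht _
    have h1 : (gaussianMatrix n).real {X | ‖zPermanent z X‖ ^ 2 < t * n.factorial}
        ≤ Real.Gamma (1 - b) ^ n * t ^ b :=
      ENNReal.toReal_le_of_le_ofReal (by positivity) (small_ball n z hz b hb hb1 t ht)
    have h2 : (gaussianMatrix n).real {X | ‖zPermanent z X‖ ^ 2 < t * n.factorial}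
        ≤ ((n : ℝ) + 1) ^ (1 - b) * (Real.Gamma (1 + b) * Real.Gamma (1 - b)) ^ n * t ^ b :=
      ENNReal.toReal_le_of_le_ofReal (by positivity) (small_ball_two z hz b hb hb1 t ht)
    rcases le_total 1 (((n : ℝ) + 1) ^ (1 - b) * Real.Gamma (1 + b) ^ n) with h | h
    · rw [min_eq_left h, mul_one]
      exact h1
    · rw [min_eq_right h]
      refine h2.trans (le_of_eq ?_)
      rw [mul_pow]
      ring
  · intro n z δ hn hz hδ hδ1
    have hset : {X : Fin n → Fin n → ℂ | (n.factorial : ℝ) *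
        Real.exp (-(max (3 * √(n * Real.log ((n + 1) / δ))) (4 * Real.log ((n + 1) / δ))))
          ≤ ‖zPermanent z X‖ ^ 2}
        = {X | ‖zPermanent z X‖ ^ 2 < Real.exp (-(max (3 * √(n * Real.log ((n + 1) / δ)))
          (4 * Real.log ((n + 1) / δ)))) * n.factorial}ᶜ := by
      ext X
      simp only [Set.mem_ofPred_eq, Set.mem_compl_iff, not_lt]
      rw [mul_comm]
    have hm : MeasurableSet {X : Fin n → Fin n → ℂ | ‖zPermanent z X‖ ^ 2 <
        Real.exp (-(max (3 * √(n * Real.log ((n + 1) / δ))) (4 * Real.log ((n + 1) / δ)))) *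
          n.factorial} :=
      measurableSet_lt ((measurable_zPermanent z).norm.pow_const 2) measurable_const
    rw [hset, probReal_compl_eq_one_sub hm]
    have h := ENNReal.toReal_le_of_le_ofReal hδ.le (explicit n hn z hz δ hδ hδ1)
    change (gaussianMatrix n).real _ ≤ δ at h
    linarith

end Pool.Agent.Results.MP_5f83d6_pr.TrueScale
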